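import Pool.Agent.N229.SC.Stm

/-!
Project SC (helper229), auxiliary lemmas for the weak identities: integrals of divergences.
-/

set_option autoImplicit false

open Set Filter Topology MeasureTheory

namespace Pool.Agent.N738.SC

open Pool.Agent.N229.SC

/-- continuity near the closed disc gives integrability on the disc -/
theorem integ {r : ℝ} (hr : 1 < r) {g : ℂ → ℝ} (hg : ContinuousOn g (Metric.ball 0 r)) :
    IntegrableOn g (Metric.ball (0 : ℂ) 1) :=
  ((hg.mono (Metric.closedBall_subset_ball hr)).integrableOn_compact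
    (isCompact_closedBall (0 : ℂ) 1)).mono_set Metric.ball_subset_closedBall

/-- the integral of a derivative of a function which vanishes on the unit circle -/
theorem div0 (hDIV : S_DIV) {r : ℝ} (hr : 1 < r) {g : ℂ → ℝ}
    (hg : ContDiffOn ℝ 1 g (Metric.ball 0 r)) (h0 : ∀ z : ℂ, ‖z‖ = 1 → g z = 0) (v : ℂ) :
    ∫ z in Metric.ball (0 : ℂ) 1, fderiv ℝ g z v = 0 := by
  classical
  have hsub : Metric.closedBall (0 : ℂ) 1 ⊆ Metric.ball 0 r := Metric.closedBall_subset_ball hr
  have hsub' : Metric.ball (0 : ℂ) 1 ⊆ Metric.ball 0 r :=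
    Metric.ball_subset_closedBall.trans hsub
  obtain ⟨F, hF⟩ : ∃ F : ℂ → ℝ, F = (Metric.ball (0 : ℂ) 1).indicator g := ⟨_, rfl⟩
  have hFin : ∀ z ∈ Metric.ball (0 : ℂ) 1, F z = g z := fun z hz => by
    rw [hF, indicator_of_mem hz]
  have hFout : ∀ z : ℂ, 1 ≤ ‖z‖ → F z = 0 := fun z hz => by
    rw [hF, indicator_of_notMem]
    rw [mem_ball_zero_iff]
    exact not_lt.2 hz
  have hFcl : ∀ z ∈ Metric.closedBall (0 : ℂ) 1, F z = g z := by
    intro z hz
    rcases lt_or_eq_of_le (mem_closedBall_zero_iff.1 hz) with h | h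
    · exact hFin z (mem_ball_zero_iff.2 h)
    · rw [hFout z h.ge, h0 z h]
  have hcont : Continuous F := by
    rw [← continuousOn_univ]
    have hu : (univ : Set ℂ) = Metric.closedBall (0 : ℂ) 1 ∪ {z | 1 ≤ ‖z‖} := by
      ext z
      simp only [mem_univ, mem_union, mem_closedBall_zero_iff, mem_ofPred_eq, true_iff]
      exact le_total _ _
    rw [hu]
    refine ContinuousOn.union_of_isClosed ?_ ?_ Metric.isClosed_closedBall
      (isClosed_le continuous_const continuous_norm)
    · exact (hg.continuousOn.mono hsub).congr hFcl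
    · exact continuousOn_const.congr fun z hz => hFout z hz
  have hsm : ContDiffOn ℝ 1 F (Metric.ball 0 1) := (hg.mono hsub').congr hFin
  have hder : ∀ z ∈ Metric.ball (0 : ℂ) 1, fderiv ℝ F z = fderiv ℝ g z := by
    intro z hz
    refine Filter.EventuallyEq.fderiv_eq ?_
    filter_upwards [Metric.isOpen_ball.mem_nhds hz] with w hw
    exact hFin w hw
  obtain ⟨B, hB⟩ := (isCompact_closedBall (0 : ℂ) 1).exists_bound_of_continuousOn
    ((hg.continuousOn_fderiv_of_isOpen Metric.isOpen_ball le_rfl).mono hsub)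
  have h1 := hDIV F B hcont hFout hsm (fun z hz => by
    rw [hder z hz]
    exact hB z (Metric.ball_subset_closedBall hz)) v
  rw [← h1]
  refine setIntegral_congr_fun measurableSet_ball fun z hz => ?_
  show fderiv ℝ g z v = fderiv ℝ F z v
  rw [hder z hz]

/-- the divergence theorem for the product of a function and a vector field -/
theorem key (hDIV : S_DIV) {r : ℝ} (hr : 1 < r) {H : ℂ → ℝ} {K : ℂ → ℂ}
    (hH : ContDiffOn ℝ 1 H (Metric.ball 0 r)) (hK : ContDiffOn ℝ 1 K (Metric.ball 0 r))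
    (h0 : ∀ z : ℂ, ‖z‖ = 1 → H z = 0 ∨ K z = 0) :
    ∫ z in Metric.ball (0 : ℂ) 1, (fderiv ℝ H z (K z) +
      H z * ((fderiv ℝ K z 1).re + (fderiv ℝ K z Complex.I).im)) = 0 := by
  have hsub' : Metric.ball (0 : ℂ) 1 ⊆ Metric.ball 0 r :=
    Metric.ball_subset_closedBall.trans (Metric.closedBall_subset_ball hr)
  have hre : ContDiffOn ℝ 1 (fun z => (K z).re) (Metric.ball 0 r) :=
    Complex.reCLM.contDiff.comp_contDiffOn hK
  have him : ContDiffOn ℝ 1 (fun z => (K z).im) (Metric.ball 0 r) :=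
    Complex.imCLM.contDiff.comp_contDiffOn hK
  have hg1 : ContDiffOn ℝ 1 (fun z => H z * (K z).re) (Metric.ball 0 r) := hH.mul hre
  have hg2 : ContDiffOn ℝ 1 (fun z => H z * (K z).im) (Metric.ball 0 r) := hH.mul him
  have e1 := div0 hDIV hr hg1 (fun z hz => by
    rcases h0 z hz with h | h
    · rw [h, zero_mul]
    · rw [h, Complex.zero_re, mul_zero]) 1
  have e2 := div0 hDIV hr hg2 (fun z hz => by
    rcases h0 z hz with h | h
    · rw [h, zero_mul]
    · rw [h, Complex.zero_im, mul_zero]) Complex.I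
  have i1 : IntegrableOn (fun z => fderiv ℝ (fun z => H z * (K z).re) z 1) (Metric.ball (0 : ℂ) 1) :=
    integ hr ((hg1.continuousOn_fderiv_of_isOpen Metric.isOpen_ball le_rfl).clm_apply
      continuousOn_const)
  have i2 : IntegrableOn (fun z => fderiv ℝ (fun z => H z * (K z).im) z Complex.I)
      (Metric.ball (0 : ℂ) 1) :=
    integ hr ((hg2.continuousOn_fderiv_of_isOpen Metric.isOpen_ball le_rfl).clm_apply
      continuousOn_const)
  have e3 := integral_add i1 i2
  rw [e1, e2, add_zero] at e3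
  rw [← e3]
  refine setIntegral_congr_fun measurableSet_ball fun z hz => ?_
  have hz' : z ∈ Metric.ball (0 : ℂ) r := hsub' hz
  have hnhds := Metric.isOpen_ball.mem_nhds hz'
  have dH : HasFDerivAt H (fderiv ℝ H z) z :=
    ((hH.contDiffAt hnhds).differentiableAt (by norm_num)).hasFDerivAt
  have dK : HasFDerivAt K (fderiv ℝ K z) z :=
    ((hK.contDiffAt hnhds).differentiableAt (by norm_num)).hasFDerivAt
  have dre : HasFDerivAt (fun z => (K z).re) (Complex.reCLM.comp (fderiv ℝ K z)) z :=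
    Complex.reCLM.hasFDerivAt.comp z dK
  have dim : HasFDerivAt (fun z => (K z).im) (Complex.imCLM.comp (fderiv ℝ K z)) z :=
    Complex.imCLM.hasFDerivAt.comp z dK
  have d1 := (dH.mul dre).fderiv
  have d2 := (dH.mul dim).fderiv
  have hlin : fderiv ℝ H z (K z) = (K z).re * fderiv ℝ H z 1 + (K z).im * fderiv ℝ H z Complex.I := by
    conv_lhs => rw [← Complex.re_add_im (K z)]
    have h1 : ((K z).re : ℂ) = (K z).re • (1 : ℂ) := by
      rw [Complex.real_smul, mul_one]
    have h2 : ((K z).im : ℂ) * Complex.I = (K z).im • Complex.I := by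
      rw [Complex.real_smul]
    rw [h1, h2, map_add, map_smul, map_smul, smul_eq_mul, smul_eq_mul]
  show fderiv ℝ H z (K z) + H z * ((fderiv ℝ K z 1).re + (fderiv ℝ K z Complex.I).im) =
    fderiv ℝ (fun z => H z * (K z).re) z 1 + fderiv ℝ (fun z => H z * (K z).im) z Complex.I
  have d1' : fderiv ℝ (fun z => H z * (K z).re) z =
      H z • (Complex.reCLM.comp (fderiv ℝ K z)) + (K z).re • fderiv ℝ H z := d1
  have d2' : fderiv ℝ (fun z => H z * (K z).im) z =
      H z • (Complex.imCLM.comp (fderiv ℝ K z)) + (K z).im • fderiv ℝ H z := d2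
  rw [d1', d2', hlin]
  simp only [_root_.add_apply, _root_.smul_apply,
    ContinuousLinearMap.comp_apply, Complex.reCLM_apply, Complex.imCLM_apply, smul_eq_mul]
  ring

/-- the regularity of the data of a classical solution -/
theorem regU {r c : ℝ} {f : ℂ → ℂ} {U : ℂ → ℝ} {S : ℂ → ℂ} (h : Cl r c f U S) :
    ContDiffOn ℝ 1 U (Metric.ball 0 r) := by
  have h1 : ∀ z ∈ Metric.ball (0 : ℂ) r, fderiv ℝ U z =
      Complex.reCLM.comp (ContinuousLinearMap.mul ℝ ℂ (S z)) := fun z hz => (h.U_der z hz).fderiv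
  have h2 : ContDiffOn ℝ (0 + 1) U (Metric.ball 0 r) := by
    rw [contDiffOn_succ_iff_fderiv_of_isOpen Metric.isOpen_ball]
    refine ⟨fun z hz => (h.U_der z hz).differentiableAt.differentiableWithinAt,
      fun h => absurd h (by simp), ?_⟩
    rw [contDiffOn_zero]
    refine ContinuousOn.congr ?_ h1
    exact continuousOn_const.clm_comp
      ((ContinuousLinearMap.mul ℝ ℂ).continuous.comp_continuousOn h.S_smooth.continuousOn)
  simpa using h2

theorem regf {ρ r : ℝ} {f : ℂ → ℂ} (h : Conf ρ r f) : ContDiffOn ℝ 1 f (Metric.ball 0 r) :=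
  (h.f_diff.contDiffOn Metric.isOpen_ball).restrict_scalars ℝ

theorem regf' {ρ r : ℝ} {f : ℂ → ℂ} (h : Conf ρ r f) :
    ContDiffOn ℝ 1 (deriv f) (Metric.ball 0 r) :=
  ((h.f_diff.deriv Metric.isOpen_ball).contDiffOn Metric.isOpen_ball).restrict_scalars ℝ

theorem derf {ρ r : ℝ} {f : ℂ → ℂ} (h : Conf ρ r f) {z : ℂ} (hz : z ∈ Metric.ball (0 : ℂ) r) :
    HasFDerivAt f (ContinuousLinearMap.mul ℝ ℂ (deriv f z)) z := by
  have h1 : HasDerivAt f (deriv f z) z :=
    (h.f_diff.differentiableAt (Metric.isOpen_ball.mem_nhds hz)).hasDerivAt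
  have h2 := h1.hasFDerivAt.restrictScalars ℝ
  refine h2.congr_fderiv ?_
  ext w
  simp [mul_comm]

theorem derf' {ρ r : ℝ} {f : ℂ → ℂ} (h : Conf ρ r f) {z : ℂ} (hz : z ∈ Metric.ball (0 : ℂ) r) :
    HasFDerivAt (deriv f) (ContinuousLinearMap.mul ℝ ℂ (deriv (deriv f) z)) z := by
  have h1 : HasDerivAt (deriv f) (deriv (deriv f) z) z :=
    ((h.f_diff.deriv Metric.isOpen_ball).differentiableAt
      (Metric.isOpen_ball.mem_nhds hz)).hasDerivAt
  have h2 := h1.hasFDerivAt.restrictScalars ℝ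
  refine h2.congr_fderiv ?_
  ext w
  simp [mul_comm]

/-- the derivative is not zero -/
theorem der_ne {ρ r : ℝ} {f : ℂ → ℂ} (h : Conf ρ r f) {z : ℂ} (hz : z ∈ Metric.ball (0 : ℂ) r) :
    deriv f z ≠ 0 := by
  intro h0
  have h1 := h.f_der z hz
  rw [h0, zero_sub, norm_neg, Complex.norm_real, Real.norm_eq_abs, abs_of_pos h.rho_pos] at h1
  have := h.rho_pos
  linarith

theorem inv_f (hINJ : S_INJ) {ρ r : ℝ} {f : ℂ → ℂ} (h : Conf ρ r f) {z : ℂ}
    (hz : z ∈ Metric.ball (0 : ℂ) 1) :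
    Function.invFunOn f (Metric.ball (0 : ℂ) 1) (f z) = z := by
  have h1 : InjOn f (Metric.ball 0 1) :=
    (hINJ ρ r f h).2.mono (Metric.ball_subset_ball h.r_gt.le)
  exact h1.leftInvOn_invFunOn hz

end Pool.Agent.N738.SC
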